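import Mathlib

/-!
Kneser's addition theorem for abelian groups.
-/

namespace Pool.Agent.Lib.MP_25b479_co

open scoped Pointwise

variable {G : Type*} [AddCommGroup G] [DecidableEq G]

/-- `H` is a finite subgroup stabilising the finite set `C`. -/
def Stab (H : AddSubgroup G) (C : Finset G) : Prop :=
  (H : Set G).Finite ∧ ∀ h ∈ H, ∀ c ∈ C, h + c ∈ C

/-- the coset `x + H` as a finset -/
noncomputable def coset (H : AddSubgroup G) (hH : (H : Set G).Finite) (x : G) : Finset G :=
  hH.toFinset.image (fun h => x + h)

theorem mem_coset {H : AddSubgroup G} {hH : (H : Set G).Finite} {x y : G} :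
    y ∈ coset H hH x ↔ y - x ∈ H := by
  unfold coset
  simp only [Finset.mem_image, Set.Finite.mem_toFinset, SetLike.mem_coe]
  constructor
  · rintro ⟨h, hh, rfl⟩
    simpa using hh
  · intro h
    exact ⟨y - x, h, by abel⟩

theorem card_coset {H : AddSubgroup G} {hH : (H : Set G).Finite} (x : G) :
    (coset H hH x).card = Nat.card H := by
  unfold coset
  rw [Finset.card_image_of_injective _ (add_right_injective x)]
  exact (Nat.card_eq_card_finite_toFinset hH).symm

/-- A key step: both differences meet one coset of `H₁ + H₂`, or not. -/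
theorem union_aux {H₁ H₂ : AddSubgroup G} {C₁ C₂ : Finset G} (h₁ : Stab H₁ C₁) (h₂ : Stab H₂ C₂)
    (hn₁ : ¬ C₁ ⊆ C₂) (hn₂ : ¬ C₂ ⊆ C₁) :
    Nat.card H₁ ≤ (C₂ \ C₁).card + Nat.card (H₁ ⊓ H₂ : AddSubgroup G) ∨
    Nat.card H₂ ≤ (C₁ \ C₂).card + Nat.card (H₁ ⊓ H₂ : AddSubgroup G) := by
  obtain ⟨f₁, s₁⟩ := h₁
  obtain ⟨f₂, s₂⟩ := h₂
  have fK : ((H₁ ⊓ H₂ : AddSubgroup G) : Set G).Finite := f₁.subset (by
    intro x hx; exact hx.1)
  -- periodicity as iff
  have p₁ : ∀ h ∈ H₁, ∀ c, h + c ∈ C₁ ↔ c ∈ C₁ := by
    intro h hh c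
    constructor
    · intro hc
      have := s₁ (-h) (H₁.neg_mem hh) _ hc
      simpa using this
    · exact s₁ h hh c
  have p₂ : ∀ h ∈ H₂, ∀ c, h + c ∈ C₂ ↔ c ∈ C₂ := by
    intro h hh c
    constructor
    · intro hc
      have := s₂ (-h) (H₂.neg_mem hh) _ hc
      simpa using this
    · exact s₂ h hh c
  have q₁ : ∀ x y, y - x ∈ H₁ → (y ∈ C₁ ↔ x ∈ C₁) := by
    intro x y h
    have := p₁ _ h x
    rwa [sub_add_cancel] at this
  have q₂ : ∀ x y, y - x ∈ H₂ → (y ∈ C₂ ↔ x ∈ C₂) := by
    intro x y h
    have := p₂ _ h x
    rwa [sub_add_cancel] at this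
  rw [Finset.not_subset] at hn₁ hn₂
  by_cases hcom : ∃ x ∈ C₂ \ C₁, ∃ y ∈ C₁ \ C₂, ∃ a ∈ H₁, ∃ b ∈ H₂, y = x + a + b
  · obtain ⟨x, hx, y, hy, a, ha, b, hb, hyx⟩ := hcom
    rw [Finset.mem_sdiff] at hx hy
    -- four pieces
    have e1 : ((coset H₂ f₂ x) ∩ C₁).card = ((coset H₂ f₂ y) ∩ C₁).card := by
      apply Finset.card_bij (fun z _ => z + a)
      · intro z hz
        rw [Finset.mem_inter, mem_coset] at hz ⊢
        refine ⟨?_, ?_⟩
        · have : z + a - y = (z - x) - b := by rw [hyx]; abel
          rw [this]
          exact H₂.sub_mem hz.1 hb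
        · exact (q₁ z (z + a) (by simpa using ha)).2 hz.2
      · intro z _ w _ h
        exact add_right_cancel h
      · intro w hw
        rw [Finset.mem_inter, mem_coset] at hw
        refine ⟨w - a, ?_, by abel⟩
        rw [Finset.mem_inter, mem_coset]
        refine ⟨?_, ?_⟩
        · have : w - a - x = (w - y) + b := by rw [hyx]; abel
          rw [this]
          exact H₂.add_mem hw.1 hb
        · exact (q₁ w (w - a) (by simpa using ha)).2 hw.2
    have e2 : ((coset H₁ f₁ x) ∩ C₂).card = ((coset H₁ f₁ y) ∩ C₂).card := by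
      apply Finset.card_bij (fun z _ => z + b)
      · intro z hz
        rw [Finset.mem_inter, mem_coset] at hz ⊢
        refine ⟨?_, ?_⟩
        · have : z + b - y = (z - x) - a := by rw [hyx]; abel
          rw [this]
          exact H₁.sub_mem hz.1 ha
        · exact (q₂ z (z + b) (by simpa using hb)).2 hz.2
      · intro z _ w _ h
        exact add_right_cancel h
      · intro w hw
        rw [Finset.mem_inter, mem_coset] at hw
        refine ⟨w - b, ?_, by abel⟩
        rw [Finset.mem_inter, mem_coset]
        refine ⟨?_, ?_⟩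
        · have : w - b - x = (w - y) + a := by rw [hyx]; abel
          rw [this]
          exact H₁.add_mem hw.1 ha
        · exact (q₂ w (w - b) (by simpa using hb)).2 hw.2
    have c1 : ((coset H₂ f₂ x) ∩ C₁).card + ((coset H₂ f₂ x) \ C₁).card = Nat.card H₂ := by
      rw [← card_coset (hH := f₂) x]
      exact Finset.card_inter_add_card_sdiff _ _
    have c2 : ((coset H₁ f₁ y) ∩ C₂).card + ((coset H₁ f₁ y) \ C₂).card = Nat.card H₁ := by
      rw [← card_coset (hH := f₁) y]
      exact Finset.card_inter_add_card_sdiff _ _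
    have d1 : ((coset H₂ f₂ x) \ C₁).card + ((coset H₁ f₁ x) ∩ C₂).card ≤
        (C₂ \ C₁).card + Nat.card (H₁ ⊓ H₂ : AddSubgroup G) := by
      rw [← Finset.card_union_add_card_inter]
      apply Nat.add_le_add
      · apply Finset.card_le_card
        intro z hz
        rw [Finset.mem_union, Finset.mem_sdiff, Finset.mem_inter, mem_coset, mem_coset] at hz
        rw [Finset.mem_sdiff]
        rcases hz with hz | hz
        · exact ⟨(q₂ x z hz.1).2 hx.1, hz.2⟩
        · exact ⟨hz.2, fun h => hx.2 ((q₁ x z hz.1).1 h)⟩
      · rw [← card_coset (hH := fK) x]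
        apply Finset.card_le_card
        intro z hz
        rw [Finset.mem_inter, Finset.mem_sdiff, Finset.mem_inter, mem_coset, mem_coset] at hz
        rw [mem_coset]
        exact ⟨hz.2.1, hz.1.1⟩
    have d2 : ((coset H₁ f₁ y) \ C₂).card + ((coset H₂ f₂ y) ∩ C₁).card ≤
        (C₁ \ C₂).card + Nat.card (H₁ ⊓ H₂ : AddSubgroup G) := by
      rw [← Finset.card_union_add_card_inter]
      apply Nat.add_le_add
      · apply Finset.card_le_card
        intro z hz
        rw [Finset.mem_union, Finset.mem_sdiff, Finset.mem_inter, mem_coset, mem_coset] at hz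
        rw [Finset.mem_sdiff]
        rcases hz with hz | hz
        · exact ⟨(q₁ y z hz.1).2 hy.1, hz.2⟩
        · exact ⟨hz.2, fun h => hy.2 ((q₂ y z hz.1).1 h)⟩
      · rw [← card_coset (hH := fK) y]
        apply Finset.card_le_card
        intro z hz
        rw [Finset.mem_inter, Finset.mem_sdiff, Finset.mem_inter, mem_coset, mem_coset] at hz
        rw [mem_coset]
        exact ⟨hz.1.1, hz.2.1⟩
    omega
  · push Not at hcom
    obtain ⟨y, hy1, hy2⟩ := hn₁
    obtain ⟨x, hx2, hx1⟩ := hn₂
    have hxm : x ∈ C₂ \ C₁ := Finset.mem_sdiff.2 ⟨hx2, hx1⟩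
    have hym : y ∈ C₁ \ C₂ := Finset.mem_sdiff.2 ⟨hy1, hy2⟩
    -- for x
    have A : Nat.card H₁ ≤ (C₂ \ C₁).card ∨ Nat.card H₂ ≤ (C₂ \ C₁).card := by
      by_cases hc : ∃ a ∈ H₁, ∃ b ∈ H₂, x + a + b ∈ C₁
      · left
        obtain ⟨a, ha, b, hb, hab⟩ := hc
        rw [← card_coset (hH := f₁) x]
        apply Finset.card_le_card
        intro z hz
        rw [mem_coset] at hz
        rw [Finset.mem_sdiff]
        refine ⟨?_, fun h => hx1 ((q₁ x z hz).1 h)⟩
        -- z + b ∈ C₁ , not in D₂, so in C₂
        have h1 : z + b ∈ C₁ := by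
          refine (q₁ (x + a + b) (z + b) ?_).2 hab
          have : z + b - (x + a + b) = (z - x) - a := by abel
          rw [this]
          exact H₁.sub_mem hz ha
        have h2 : z + b ∈ C₂ := by
          by_contra h2
          exact hcom x hxm (z + b) (Finset.mem_sdiff.2 ⟨h1, h2⟩) (z - x) hz b hb (by abel)
        exact (q₂ (z + b) z (by
          have : z - (z + b) = -b := by abel
          rw [this]; exact H₂.neg_mem hb)).2 h2
      · right
        push Not at hc
        rw [← card_coset (hH := f₂) x]
        apply Finset.card_le_card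
        intro z hz
        rw [mem_coset] at hz
        rw [Finset.mem_sdiff]
        refine ⟨(q₂ x z hz).2 hx2, ?_⟩
        have := hc 0 H₁.zero_mem (z - x) hz
        intro h
        apply this
        have : x + 0 + (z - x) = z := by abel
        rwa [this]
    have B : Nat.card H₂ ≤ (C₁ \ C₂).card ∨ Nat.card H₁ ≤ (C₁ \ C₂).card := by
      by_cases hc : ∃ a ∈ H₁, ∃ b ∈ H₂, y + a + b ∈ C₂
      · left
        obtain ⟨a, ha, b, hb, hab⟩ := hc
        rw [← card_coset (hH := f₂) y]
        apply Finset.card_le_card
        intro z hz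
        rw [mem_coset] at hz
        rw [Finset.mem_sdiff]
        refine ⟨?_, fun h => hy2 ((q₂ y z hz).1 h)⟩
        have h1 : z + a ∈ C₂ := by
          refine (q₂ (y + a + b) (z + a) ?_).2 hab
          have : z + a - (y + a + b) = (z - y) - b := by abel
          rw [this]
          exact H₂.sub_mem hz hb
        have h2 : z + a ∈ C₁ := by
          by_contra h2
          exact hcom (z + a) (Finset.mem_sdiff.2 ⟨h1, h2⟩) y hym (-a) (H₁.neg_mem ha)
            (-(z - y)) (H₂.neg_mem hz) (by abel)
        exact (q₁ (z + a) z (by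
          have : z - (z + a) = -a := by abel
          rw [this]; exact H₁.neg_mem ha)).2 h2
      · right
        push Not at hc
        rw [← card_coset (hH := f₁) y]
        apply Finset.card_le_card
        intro z hz
        rw [mem_coset] at hz
        rw [Finset.mem_sdiff]
        refine ⟨(q₁ y z hz).2 hy1, ?_⟩
        have := hc (z - y) hz 0 H₂.zero_mem
        intro h
        apply this
        have : y + (z - y) + 0 = z := by abel
        rwa [this]
    rcases A with A | A <;> rcases B with B | B <;> omega

/-- The union lemma. -/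
theorem union_lemma {s : ℕ} {C₁ C₂ : Finset G}
    (h₁ : ∃ H : AddSubgroup G, Stab H C₁ ∧ s ≤ C₁.card + Nat.card H)
    (h₂ : ∃ H : AddSubgroup G, Stab H C₂ ∧ s ≤ C₂.card + Nat.card H) :
    ∃ H : AddSubgroup G, Stab H (C₁ ∪ C₂) ∧ s ≤ (C₁ ∪ C₂).card + Nat.card H := by
  by_cases hn₁ : C₁ ⊆ C₂
  · rw [Finset.union_eq_right.2 hn₁]; exact h₂
  by_cases hn₂ : C₂ ⊆ C₁
  · rw [Finset.union_eq_left.2 hn₂]; exact h₁
  obtain ⟨H₁, k₁, l₁⟩ := h₁
  obtain ⟨H₂, k₂, l₂⟩ := h₂
  refine ⟨H₁ ⊓ H₂, ⟨k₁.1.subset (fun x hx => hx.1), ?_⟩, ?_⟩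
  · intro h hh c hc
    rw [Finset.mem_union] at hc ⊢
    rcases hc with hc | hc
    · left; exact k₁.2 h hh.1 c hc
    · right; exact k₂.2 h hh.2 c hc
  · have e1 : (C₁ ∪ C₂).card = C₁.card + (C₂ \ C₁).card := by
      rw [← Finset.union_sdiff_self_eq_union, Finset.card_union_of_disjoint]
      exact Finset.disjoint_sdiff
    have e2 : (C₁ ∪ C₂).card = C₂.card + (C₁ \ C₂).card := by
      rw [Finset.union_comm, ← Finset.union_sdiff_self_eq_union, Finset.card_union_of_disjoint]
      exact Finset.disjoint_sdiff
    rcases union_aux k₁ k₂ hn₁ hn₂ with h | h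
    · omega
    · omega

/-- Existence of a good piece around each sum. -/
theorem piece : ∀ (m : ℕ) (A B : Finset G), B.card = m → ∀ a ∈ A, ∀ b ∈ B,
    ∃ C : Finset G, C ⊆ A + B ∧ a + b ∈ C ∧
      ∃ H : AddSubgroup G, Stab H C ∧ A.card + B.card ≤ C.card + Nat.card H := by
  intro m
  induction m using Nat.strong_induction_on with
  | _ m ih =>
    intro A B hB a ha b hb
    by_cases hcase : ∀ b' ∈ B, ∀ a' ∈ A, a' + b' - b ∈ A
    · -- A is periodic
      refine ⟨A + B, subset_rfl, Finset.add_mem_add ha hb, ?_⟩
      -- the stabiliser of A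
      let H : AddSubgroup G :=
        { carrier := {g | ∀ x, g + x ∈ A ↔ x ∈ A}
          zero_mem' := by intro x; simp
          add_mem' := by
            intro g h hg hh x
            rw [add_assoc, hg, hh]
          neg_mem' := by
            intro g hg x
            have := hg (-g + x)
            rw [add_neg_cancel_left] at this
            exact this.symm }
      have hHfin : (H : Set G).Finite := by
        refine (A.finite_toSet.image (fun x => x - a)).subset ?_
        intro g hg
        exact ⟨g + a, (hg a).2 ha, by simp⟩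
      have hBH : ∀ b' ∈ B, b' - b ∈ H := by
        intro b' hb' x
        constructor
        · intro hx
          -- the map x ↦ x + (b' - b) maps A injectively into A so is bijective
          have hmaps : ∀ y ∈ A, y + (b' - b) ∈ A := by
            intro y hy
            have := hcase b' hb' y hy
            rwa [add_sub_assoc] at this
          have himg : A.image (fun y => y + (b' - b)) = A := by
            apply Finset.eq_of_subset_of_card_le
            · intro z hz
              obtain ⟨y, hy, rfl⟩ := Finset.mem_image.1 hz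
              exact hmaps y hy
            · rw [Finset.card_image_of_injective _ (add_left_injective _)]
          rw [← himg] at hx
          obtain ⟨y, hy, hyx⟩ := Finset.mem_image.1 hx
          have : y = x := by
            have h : y + (b' - b) = x + (b' - b) := by rw [hyx]; abel
            exact add_right_cancel h
          rwa [← this]
        · intro hx
          have := hcase b' hb' x hx
          have e : b' - b + x = x + b' - b := by abel
          rwa [e]
      have hAB : A + B = A.image (fun x => x + b) := by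
        ext z
        rw [Finset.mem_add, Finset.mem_image]
        constructor
        · rintro ⟨x, hx, y, hy, rfl⟩
          exact ⟨x + y - b, hcase y hy x hx, by abel⟩
        · rintro ⟨x, hx, rfl⟩
          exact ⟨x, hx, b, hb, rfl⟩
      refine ⟨H, ⟨hHfin, ?_⟩, ?_⟩
      · intro h hh c hc
        rw [hAB, Finset.mem_image] at hc ⊢
        obtain ⟨x, hx, rfl⟩ := hc
        exact ⟨h + x, (hh x).2 hx, by abel⟩
      · have h1 : (A + B).card = A.card := by
          rw [hAB, Finset.card_image_of_injective _ (add_left_injective _)]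
        have h2 : B.card ≤ Nat.card H := by
          rw [← card_coset (hH := hHfin) b]
          apply Finset.card_le_card
          intro z hz
          rw [mem_coset]
          exact hBH z hz
        omega
    · push Not at hcase
      obtain ⟨b', hb', a', ha', hnot⟩ := hcase
      -- e-transform with e = a' - b
      set e := a' - b with he
      set A' := A ∪ B.image (fun x => x + e) with hA'
      set B' := B.filter (fun x => x + e ∈ A) with hB'
      have hbB' : b ∈ B' := by
        rw [hB', Finset.mem_filter]
        refine ⟨hb, ?_⟩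
        rw [he]
        simpa using ha'
      have hb'B' : b' ∉ B' := by
        rw [hB', Finset.mem_filter]
        rintro ⟨_, h⟩
        apply hnot
        have : a' + b' - b = b' + e := by rw [he]; abel
        rwa [this]
      have hlt : B'.card < m := by
        rw [← hB]
        apply Finset.card_lt_card
        rw [Finset.ssubset_iff_of_subset (Finset.filter_subset _ _)]
        exact ⟨b', hb', hb'B'⟩
      have hsub : A' + B' ⊆ A + B := by
        intro z hz
        rw [Finset.mem_add] at hz
        obtain ⟨x, hx, y, hy, rfl⟩ := hz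
        rw [hB', Finset.mem_filter] at hy
        rw [hA', Finset.mem_union, Finset.mem_image] at hx
        rcases hx with hx | ⟨w, hw, rfl⟩
        · exact Finset.add_mem_add hx hy.1
        · have : w + e + y = (y + e) + w := by abel
          rw [this]
          exact Finset.add_mem_add hy.2 hw
      have hcard : A'.card + B'.card = A.card + B.card := by
        have h1 : A'.card = A.card + (B.image (fun x => x + e) \ A).card := by
          rw [hA', ← Finset.union_sdiff_self_eq_union, Finset.card_union_of_disjoint]
          exact Finset.disjoint_sdiff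
        have h2 : B.image (fun x => x + e) \ A =
            (B.filter (fun x => ¬ (x + e ∈ A))).image (fun x => x + e) := by
          ext z
          simp only [Finset.mem_sdiff, Finset.mem_image, Finset.mem_filter]
          constructor
          · rintro ⟨⟨w, hw, rfl⟩, h⟩
            exact ⟨w, ⟨hw, h⟩, rfl⟩
          · rintro ⟨w, ⟨hw, h⟩, rfl⟩
            exact ⟨⟨w, hw, rfl⟩, h⟩
        rw [h2, Finset.card_image_of_injective _ (add_left_injective _)] at h1
        have h3 := Finset.card_filter_add_card_filter_not (s := B) (fun x => x + e ∈ A)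
        rw [hB']
        omega
      obtain ⟨C, hC1, hC2, H, hH1, hH2⟩ := ih B'.card hlt A' B' rfl a
        (by rw [hA', Finset.mem_union]; left; exact ha) b hbB'
      exact ⟨C, hC1.trans hsub, hC2, H, hH1, by omega⟩

/-- Kneser's theorem, weak form. -/
theorem kneser_weak (A B : Finset G) (hA : A.Nonempty) (hB : B.Nonempty) :
    ∃ H : AddSubgroup G, Stab H (A + B) ∧ A.card + B.card ≤ (A + B).card + Nat.card H := by
  have key : ∀ S : Finset G, S.Nonempty → S ⊆ A + B → ∃ C : Finset G, S ⊆ C ∧ C ⊆ A + B ∧
      ∃ H : AddSubgroup G, Stab H C ∧ A.card + B.card ≤ C.card + Nat.card H := by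
    intro S hS
    induction hS using Finset.Nonempty.cons_induction with
    | singleton z =>
      intro hz
      have hz' : z ∈ A + B := hz (Finset.mem_singleton_self z)
      rw [Finset.mem_add] at hz'
      obtain ⟨a, ha, b, hb, rfl⟩ := hz'
      obtain ⟨C, h1, h2, h3⟩ := piece B.card A B rfl a ha b hb
      exact ⟨C, Finset.singleton_subset_iff.2 h2, h1, h3⟩
    | cons z S hzS hS ih =>
      intro hsub
      rw [Finset.cons_subset] at hsub
      obtain ⟨C, h1, h2, h3⟩ := ih hsub.2
      have hz' : z ∈ A + B := hsub.1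
      rw [Finset.mem_add] at hz'
      obtain ⟨a, ha, b, hb, rfl⟩ := hz'
      obtain ⟨C', h1', h2', h3'⟩ := piece B.card A B rfl a ha b hb
      refine ⟨C ∪ C', ?_, Finset.union_subset h2 h1', union_lemma h3 h3'⟩
      rw [Finset.cons_subset]
      exact ⟨Finset.mem_union_right _ h2', h1.trans Finset.subset_union_left⟩
  obtain ⟨C, h1, h2, h3⟩ := key (A + B) (hA.add hB) subset_rfl
  have : C = A + B := Finset.Subset.antisymm h2 h1
  rwa [this] at h3

end Pool.Agent.Lib.MP_25b479_co
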